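import Pool.Agent.H24.TC.Fin

/-!
# Monochromatic tree covers of edge-coloured dense graphs: the proposed bound fails in the whole intermediate range
-/

set_option autoImplicit false

namespace Pool.Agent.Results.MP_3e3c2c_co.TreeCoverRange

open Pool.Agent.H24.TC

/-- **Main theorem.** With `ℓ = log (1/δ)`:
(1) there is an absolute constant `c > 0` such that for every `M` there is `C` with `tc_r(δ) ≥ c r (r/ℓ) min(ℓ, M)` whenever `ℓ ≥ 1` and `r ≥ C ℓ`;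
(2) for every `K` there is `C` with `tc_r(δ) > K r ⌈r/ℓ⌉` whenever `C ≤ ℓ` and `C ℓ ≤ r`;
(3) no constant `K` works in the proposed bound. -/
theorem result :
    (∃ c : ℝ, 0 < c ∧ ∀ M : ℝ, ∃ C : ℝ, ∀ (r : ℕ) (δ : ℝ), 0 < δ → 1 ≤ Real.log (1 / δ) →
      C * Real.log (1 / δ) ≤ r →
      ENNReal.ofReal (c * r * (r / Real.log (1 / δ)) * min (Real.log (1 / δ)) M) ≤ tcr r δ) ∧
    (∀ K : ℝ, 0 < K → ∃ C : ℝ, ∀ (r : ℕ) (δ : ℝ), 0 < δ → C ≤ Real.log (1 / δ) →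
      C * Real.log (1 / δ) ≤ r →
      ENNReal.ofReal (K * r * ⌈(r : ℝ) / Real.log (1 / δ)⌉₊) < tcr r δ) ∧
    (∀ K : ℝ, 0 < K → ∃ r : ℕ, 2 ≤ r ∧ ∃ δ : ℝ, 0 < δ ∧ δ < 1 ∧
      ENNReal.ofReal (K * r * ⌈(r : ℝ) / Real.log (1 / δ)⌉₊) < tcr r δ) := by
  refine ⟨lower, fun K hK => ?_, fun K hK => ?_⟩
  · obtain ⟨C, _, hC⟩ := fails K hK
    exact ⟨C, hC⟩
  · obtain ⟨C, hC1, hC⟩ := fails K hK
    have hlog : Real.log (1 / Real.exp (-C)) = C := by
      rw [one_div, ← Real.exp_neg, neg_neg, Real.log_exp]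
    obtain ⟨r, hr⟩ := exists_nat_ge (max (C * C) 2)
    refine ⟨r, by exact_mod_cast (le_max_right (C * C) 2).trans hr, Real.exp (-C), Real.exp_pos _,
      Real.exp_lt_one_iff.2 (by linarith), hC r _ (Real.exp_pos _) (by rw [hlog]) ?_⟩
    rw [hlog]
    exact (le_max_left _ _).trans hr

end Pool.Agent.Results.MP_3e3c2c_co.TreeCoverRange
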